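import Mathlib
import Pool.Agent.Helper181.EffG

set_option autoImplicit false

namespace Pool.Agent.Results.MP_a02391_co.AllMaximisers

open Pool.Agent.Helper181.EffDefs Pool.Agent.Helper181.Eff

lemma weight_le {S : Set ℕ} (h : IsNumericalSemigroup S) :
    effWeight S ≤ (genus S + 1) ^ 2 / 8 := by
  rw [Nat.le_div_iff_mul_le (by norm_num)]
  have := upper h
  omega

lemma weight_eq_iff {S : Set ℕ} (h : IsNumericalSemigroup S) :
    effWeight S = (genus S + 1) ^ 2 / 8 ↔ (genus S + 1) ^ 2 < 8 * effWeight S + 8 := by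
  have h1 := weight_le h
  constructor
  · intro h2
    have := Nat.div_add_mod ((genus S + 1) ^ 2) 8
    have := Nat.mod_lt ((genus S + 1) ^ 2) (show 0 < 8 by norm_num)
    omega
  · intro h2
    have h3 : (genus S + 1) ^ 2 / 8 < effWeight S + 1 := by
      rw [Nat.div_lt_iff_lt_mul (by norm_num)]
      omega
    omega

/-- the bound is attained in every genus -/
lemma attained (g : ℕ) : ∃ S, IsNumericalSemigroup S ∧ genus S = g ∧
    effWeight S = (g + 1) ^ 2 / 8 := by
  obtain ⟨t, ht⟩ : ∃ t, t = (g + 2) / 4 := ⟨_, rfl⟩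
  obtain ⟨A, hA⟩ : ∃ A, A = g + 1 - 2 * t := ⟨_, rfl⟩
  have h1 := Iv_attains (a := A + t) (A := A) (t := t) (by omega) rfl (by omega) (by omega)
  have h2 := Iv_genus (a := A + t) (A := A) (by omega) (by omega)
  have h3 : genus (Iv (A + t) A) = g := by omega
  rw [h3] at h1
  exact ⟨_, Iv_semigroup (by omega), h3, h1⟩

lemma maximiser_iff {g : ℕ} {S : Set ℕ} : IsMaximiser g S ↔
    IsNumericalSemigroup S ∧ genus S = g ∧ (genus S + 1) ^ 2 < 8 * effWeight S + 8 := by
  constructor
  · rintro ⟨h1, h2, h3⟩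
    refine ⟨h1, h2, ?_⟩
    rw [← weight_eq_iff h1]
    obtain ⟨S', k1, k2, k3⟩ := attained g
    have := h3 S' k1 k2
    have := weight_le h1
    rw [h2] at this ⊢
    omega
  · rintro ⟨h1, h2, h3⟩
    refine ⟨h1, h2, ?_⟩
    intro S' k1 k2
    rw [← weight_eq_iff h1] at h3
    have := weight_le k1
    rw [k2] at this
    rw [h3, h2]
    exact this

lemma interval_Iv {g t : ℕ} (hg : 10 ≤ g) (h1 : 4 * t ≤ g + 3) (h2 : g ≤ 4 * t + 1) :
    intervalSemigroup (g + 1 - t) (2 * g + 1 - 3 * t) = Iv (g + 1 - t) (g + 1 - 2 * t) := by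
  rw [interval_eq (by omega) (by omega) (by omega)]
  congr 1
  omega

/-- **Maximal effective weight.**  The maximal effective weight in genus `g` is
`⌊(g + 1)² / 8⌋`; for `g ≥ 10` the maximisers are exactly the semigroups generated by
`a, a + 1, ..., b` with `a = g + 1 - t`, `b = 2 a - t - 1`, `|g + 1 - 4 t| ≤ 2`; for `g ≤ 9` they are
exactly the complements of the listed sets. -/
theorem result (g : ℕ) :
    IsGreatest {w | ∃ S, IsNumericalSemigroup S ∧ genus S = g ∧ effWeight S = w}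
      ((g + 1) ^ 2 / 8) ∧
    (10 ≤ g → ∀ S : Set ℕ, IsMaximiser g S ↔
      ∃ t, 4 * t ≤ g + 3 ∧ g ≤ 4 * t + 1 ∧
        S = intervalSemigroup (g + 1 - t) (2 * g + 1 - 3 * t)) ∧
    (g ≤ 9 → ∀ S : Set ℕ, IsMaximiser g S ↔
      ∃ l ∈ smallGapSets g, S = {x | 0 < x ∧ x ∉ l}) := by
  refine ⟨⟨attained g, ?_⟩, ?_, ?_⟩
  · rintro w ⟨S, h1, h2, rfl⟩
    have := weight_le h1
    rwa [h2] at this
  · intro hg S
    rw [maximiser_iff]
    constructor
    · rintro ⟨h1, h2, h3⟩
      obtain ⟨a, A, t, e1, e2, e3, e4, rfl⟩ := structure_large h1 (by omega) h3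
      rw [h2] at e1
      refine ⟨t, by omega, by omega, ?_⟩
      rw [interval_Iv hg (by omega) (by omega)]
      congr 1
      · omega
      · omega
    · rintro ⟨t, h1, h2, rfl⟩
      rw [interval_Iv hg h1 h2]
      have k1 := Iv_semigroup (a := g + 1 - t) (A := g + 1 - 2 * t) (by omega)
      have k2 := Iv_genus (a := g + 1 - t) (A := g + 1 - 2 * t) (by omega) (by omega)
      have k3 := Iv_attains (a := g + 1 - t) (A := g + 1 - 2 * t) (t := t) (by omega) (by omega)
        (by omega) (by omega)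
      exact ⟨k1, by omega, (weight_eq_iff k1).1 k3⟩
  · intro hg S
    rw [maximiser_iff]
    constructor
    · rintro ⟨h1, h2, h3⟩
      have := (small_iff h1 (by omega)).1 h3
      rwa [h2] at this
    · rintro ⟨l, hl, rfl⟩
      obtain ⟨k1, k2⟩ := table_ok hg hl
      refine ⟨k1, k2, ?_⟩
      apply (small_iff k1 (by omega)).2
      rw [k2]
      exact ⟨l, hl, rfl⟩

end Pool.Agent.Results.MP_a02391_co.AllMaximisers
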